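import Mathlib
import Pool.Agent.Lib.MP_0a1b52_lc_MOD.Defs

/-!
Chains of modules in a circuit with special gates, and acceptance probabilities.
-/

namespace Pool.Agent.CliqueModules

/-- The output of gate `i` is a wire feeding gate `j`. -/
def Circuit.Feeds {V : Type} {s : ℕ} (D : Circuit V s) (i j : Fin s) : Prop :=
  Sum.inr i ∈ (D.gate j).wires

/-- The module `J` precedes the module `J'`: there is a directed path in `D` from a special gate fed
by `J` to a special gate fed by `J'`. -/
def Circuit.Precedes {V : Type} {s : ℕ} (D : Circuit V s) (J J' : Finset (V ⊕ Fin s)) : Prop :=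
  ∃ i i' f f', D.gate i = Gate.special J f ∧ D.gate i' = Gate.special J' f' ∧
    Relation.TransGen D.Feeds i i'

/-- Any two different members of `S` are comparable. -/
def Circuit.PairwiseComparable {V : Type} {s : ℕ} (D : Circuit V s)
    (S : Finset (Finset (V ⊕ Fin s))) : Prop :=
  ∀ J ∈ S, ∀ J' ∈ S, J ≠ J' → D.Precedes J J' ∨ D.Precedes J' J

open Classical in
/-- The chains of modules: the sets of modules any two of which are comparable (the empty set is
one of them). -/
noncomputable def Circuit.chains {V : Type} [Fintype V] {s : ℕ} (D : Circuit V s) :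
    Finset (Finset (Finset (V ⊕ Fin s))) :=
  D.modules.powerset.filter fun S => D.PairwiseComparable S

/-- The sum over all chains of modules of the products of the numbers of wires depending on the
variables in `T`. -/
noncomputable def Circuit.weight {V : Type} [Fintype V] {s : ℕ} (D : Circuit V s)
    (T : Finset V) : ℕ :=
  ∑ S ∈ D.chains, ∏ J ∈ S, D.numDep T J

/-- `D` accepts the graph `G`: the output of `D` on `G` is true. -/
def Circuit.Accepts {n s : ℕ} (D : Circuit (EdgeVar n) s) (G : SimpleGraph (Fin n)) : Prop :=
  ∃ val : Fin s → Prop, D.IsEval (fun e => G.Adj e.1.1 e.1.2) val ∧ val D.out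

open Classical in
/-- The probability that `D` accepts a random member of the finite family `G` of graphs. -/
noncomputable def Circuit.acceptProb {n s N : ℕ} (D : Circuit (EdgeVar n) s)
    (G : Fin N → SimpleGraph (Fin n)) : ℝ :=
  ((Finset.univ.filter fun i => D.Accepts (G i)).card : ℝ) / N

/-- `G` has a clique with more than `√n` vertices, i.e. `CLIQUE_n` is true on `G`. -/
def HasClique {n : ℕ} (G : SimpleGraph (Fin n)) : Prop :=
  ∃ K : Finset (Fin n), G.IsClique (K : Set (Fin n)) ∧ Real.sqrt n < K.card

end Pool.Agent.CliqueModules
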