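import Mathlib
import Pool.Agent.Lib.MP_0a1b52_lc_MOD.Step
import Pool.Agent.Lib.MP_0a1b52_lc_RND.Defs

/-!
The number of times at which a wire feeding a special gate, or the output, changes along an
increasing sequence of assignments.
-/

namespace Pool.Agent.CliqueModules

open Finset

section abstract

variable {W : Type}

/-- any two elements are comparable -/
def IsChainSet (r : W → W → Prop) (S : Finset W) : Prop :=
  ∀ J ∈ S, ∀ J' ∈ S, J ≠ J' → r J J' ∨ r J' J

open Classical in
/-- The sum of the products of `k` over the chains in `U`. -/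
noncomputable def chainSum (r : W → W → Prop) (k : W → ℕ) (U : Finset W) : ℕ :=
  ∑ S ∈ U.powerset.filter (fun S => IsChainSet r S), ∏ J ∈ S, k J

theorem one_le_chainSum (r : W → W → Prop) (k : W → ℕ) (U : Finset W) : 1 ≤ chainSum r k U := by
  classical
  unfold chainSum
  have h : (∅ : Finset W) ∈ U.powerset.filter (fun S => IsChainSet r S) := by
    refine mem_filter.2 ⟨empty_mem_powerset _, ?_⟩
    intro J hJ
    exact absurd hJ (notMem_empty J)
  calc 1 = ∏ J ∈ (∅ : Finset W), k J := by simp
    _ ≤ _ := single_le_sum (f := fun S : Finset W => ∏ J ∈ S, k J) (fun _ _ => Nat.zero_le _) h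

theorem chainSum_step (r : W → W → Prop) (k : W → ℕ) (U U' V : Finset W) (J : W) (hJ : J ∈ U)
    (hU' : U' ⊆ U) (hJU' : J ∉ U') (hV : V ⊆ U') (hr : ∀ J' ∈ V, r J' J) :
    chainSum r k U' + k J * chainSum r k V ≤ chainSum r k U := by
  classical
  unfold chainSum
  have hdis : Disjoint (U'.powerset.filter (fun S => IsChainSet r S))
      ((V.powerset.filter (fun S => IsChainSet r S)).image (insert J)) := by
    rw [disjoint_left]
    intro S hS hS'
    obtain ⟨S', hS'', rfl⟩ := mem_image.1 hS'
    exact hJU' (mem_powerset.1 (mem_filter.1 hS).1 (mem_insert_self _ _))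
  have hsub : (U'.powerset.filter (fun S => IsChainSet r S)) ∪
      ((V.powerset.filter (fun S => IsChainSet r S)).image (insert J)) ⊆
      U.powerset.filter (fun S => IsChainSet r S) := by
    intro S hS
    rcases mem_union.1 hS with hS | hS
    · rw [mem_filter, mem_powerset] at hS ⊢
      exact ⟨hS.1.trans hU', hS.2⟩
    · obtain ⟨S', hS', rfl⟩ := mem_image.1 hS
      rw [mem_filter, mem_powerset] at hS' ⊢
      refine ⟨?_, ?_⟩
      · intro x hx
        rcases mem_insert.1 hx with rfl | hx
        · exact hJ
        · exact hU' (hV (hS'.1 hx))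
      · intro x hx y hy hne
        by_cases hxJ : x = J
        · by_cases hyJ : y = J
          · exact absurd (hxJ.trans hyJ.symm) hne
          · have hy' := mem_of_mem_insert_of_ne hy hyJ
            rw [hxJ]
            exact Or.inr (hr y (hS'.1 hy'))
        · have hx' := mem_of_mem_insert_of_ne hx hxJ
          by_cases hyJ : y = J
          · rw [hyJ]
            exact Or.inl (hr x (hS'.1 hx'))
          · exact hS'.2 x hx' y (mem_of_mem_insert_of_ne hy hyJ) hne
  have hnot : ∀ S ∈ V.powerset.filter (fun S => IsChainSet r S), J ∉ S := by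
    intro S hS hc
    exact hJU' (hV (mem_powerset.1 (mem_filter.1 hS).1 hc))
  have hinj : ∀ S ∈ V.powerset.filter (fun S => IsChainSet r S),
      ∀ S' ∈ V.powerset.filter (fun S => IsChainSet r S), insert J S = insert J S' → S = S' := by
    intro S hS S' hS' h
    rw [← erase_insert (hnot S hS), ← erase_insert (hnot S' hS'), h]
  have h1 : k J * ∑ S ∈ V.powerset.filter (fun S => IsChainSet r S), ∏ J ∈ S, k J =
      ∑ S ∈ (V.powerset.filter (fun S => IsChainSet r S)).image (insert J), ∏ J ∈ S, k J := by
    rw [sum_image hinj, mul_sum]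
    refine sum_congr rfl fun S hS => ?_
    rw [prod_insert (hnot S hS)]
  rw [h1, ← sum_union hdis]
  exact sum_le_sum_of_subset hsub

theorem card_union_lt [DecidableEq W] (r : W → W → Prop) [DecidableRel r] (k : W → ℕ)
    (pos : W → ℕ) (A : Finset W)
    (hr : ∀ J ∈ A, ∀ J' ∈ A, r J J' → pos J < pos J')
    (htr : ∀ J ∈ A, ∀ J' ∈ A, ∀ J'' ∈ A, r J J' → r J' J'' → r J J'')
    (E : W → Finset ℕ)
    (hE : ∀ J ∈ A, (E J \ (A.filter fun J' => r J' J).biUnion E).card ≤
      k J * (1 + ((A.filter fun J' => r J' J).biUnion E).card)) :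
    ∀ m, ∀ U ⊆ A, U.card = m → (∀ J ∈ U, ∀ J' ∈ A, r J' J → J' ∈ U) →
      (U.biUnion E).card + 1 ≤ chainSum r k U := by
  intro m
  induction m using Nat.strong_induction_on with
  | _ m ih =>
    intro U hUA hUm hUc
    rcases U.eq_empty_or_nonempty with rfl | hne
    · simpa using one_le_chainSum r k ∅
    · obtain ⟨J, hJ, hmax⟩ := exists_max_image U pos hne
      have hJA := hUA hJ
      set U' := U.erase J with hU'
      set V := A.filter fun J' => r J' J with hV
      have hcardU' : U'.card < m := by
        rw [hU', ← hUm]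
        exact card_erase_lt_of_mem hJ
      have hVU' : V ⊆ U' := by
        intro J' hJ'
        obtain ⟨hJ'A, hJ'r⟩ := mem_filter.1 hJ'
        refine mem_erase.2 ⟨?_, hUc J hJ J' hJ'A hJ'r⟩
        rintro rfl
        exact lt_irrefl _ (hr _ hJ'A _ hJ'A hJ'r)
      have h1 := ih U'.card hcardU' U' ((erase_subset _ _).trans hUA) rfl (by
        intro J1 hJ1 J2 hJ2 h12
        have hJ1U := mem_of_mem_erase hJ1
        refine mem_erase.2 ⟨?_, hUc J1 hJ1U J2 hJ2 h12⟩
        rintro rfl
        have := hr _ hJ2 _ (hUA hJ1U) h12
        have := hmax J1 hJ1U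
        omega)
      have h2 := ih V.card (lt_of_le_of_lt (card_le_card hVU') hcardU') V (filter_subset _ _) rfl
        (by
          intro J1 hJ1 J2 hJ2 h12
          obtain ⟨hJ1A, hJ1r⟩ := mem_filter.1 hJ1
          exact mem_filter.2 ⟨hJ2, htr _ hJ2 _ hJ1A _ hJA h12 hJ1r⟩)
      have h3 := chainSum_step r k U U' V J hJ (erase_subset _ _) (notMem_erase _ _) hVU'
        (fun J' hJ' => (mem_filter.1 hJ').2)
      have h4 : (U.biUnion E).card ≤ (U'.biUnion E).card + (E J \ V.biUnion E).card := by
        have hsub : U.biUnion E ⊆ U'.biUnion E ∪ (E J \ V.biUnion E) := by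
          intro t ht
          by_cases htU' : t ∈ U'.biUnion E
          · exact mem_union_left _ htU'
          · apply mem_union_right
            obtain ⟨J1, hJ1, hJ1t⟩ := mem_biUnion.1 ht
            have hJ1J : J1 = J := by
              by_contra hcon
              exact htU' (mem_biUnion.2 ⟨J1, mem_erase.2 ⟨hcon, hJ1⟩, hJ1t⟩)
            subst hJ1J
            refine mem_sdiff.2 ⟨hJ1t, fun htV => htU' ?_⟩
            obtain ⟨J2, hJ2, hJ2t⟩ := mem_biUnion.1 htV
            exact mem_biUnion.2 ⟨J2, hVU' hJ2, hJ2t⟩
        exact (card_le_card hsub).trans (card_union_le _ _)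
      have h5 : (E J \ V.biUnion E).card ≤ k J * (1 + (V.biUnion E).card) := hE J hJA
      have h6 : k J * (1 + (V.biUnion E).card) ≤ k J * chainSum r k V :=
        Nat.mul_le_mul_left _ (by omega)
      omega

/-- The number of increases of a bounded sequence which can decrease only at the times in `B`. -/
theorem card_incr_le (a : ℕ → ℕ) (k : ℕ) (hk : ∀ t, a t ≤ k) (B : Finset ℕ)
    (hB : ∀ t, t ∉ B → a t ≤ a (t + 1)) (M : ℕ) :
    ((range M).filter fun t => t ∉ B ∧ a t < a (t + 1)).card ≤
      k * (1 + ((range M).filter fun t => t ∈ B).card) := by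
  have key : ((range M).filter fun t => t ∉ B ∧ a t < a (t + 1)).card + a 0 ≤
      k * ((range M).filter fun t => t ∈ B).card + a M := by
    induction M with
    | zero => simp
    | succ M ih =>
      have h1 := hk M
      have h2 := hB M
      by_cases hM : M ∈ B
      · have e1 : ((range (M + 1)).filter fun t => t ∉ B ∧ a t < a (t + 1)) =
            ((range M).filter fun t => t ∉ B ∧ a t < a (t + 1)) := by
          rw [range_add_one, filter_insert, if_neg (fun h => h.1 hM)]
        have e2 : ((range (M + 1)).filter fun t => t ∈ B).card =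
            ((range M).filter fun t => t ∈ B).card + 1 := by
          rw [range_add_one, filter_insert, if_pos hM, card_insert_of_notMem (by simp)]
        rw [e1, e2, mul_add]
        omega
      · have e2 : ((range (M + 1)).filter fun t => t ∈ B) =
            ((range M).filter fun t => t ∈ B) := by
          rw [range_add_one, filter_insert, if_neg hM]
        rw [e2]
        have h3 := h2 hM
        by_cases hlt : a M < a (M + 1)
        · have e1 : ((range (M + 1)).filter fun t => t ∉ B ∧ a t < a (t + 1)).card ≤
              ((range M).filter fun t => t ∉ B ∧ a t < a (t + 1)).card + 1 := by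
            rw [range_add_one, filter_insert, if_pos ⟨hM, hlt⟩]
            exact card_insert_le _ _
          omega
        · have e1 : ((range (M + 1)).filter fun t => t ∉ B ∧ a t < a (t + 1)) =
              ((range M).filter fun t => t ∉ B ∧ a t < a (t + 1)) := by
            rw [range_add_one, filter_insert, if_neg (fun h => hlt h.2)]
          rw [e1]
          omega
  have := hk M
  rw [mul_add]
  omega

end abstract

section chain

open Classical in
theorem Circuit.weight_eq {V : Type} [Fintype V] {s : ℕ} (D : Circuit V s) (T : Finset V) :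
    D.weight T = chainSum D.Precedes (D.numDep T) D.modules := by
  unfold Circuit.weight Circuit.chains chainSum
  refine sum_congr ?_ (fun _ _ => rfl)
  ext S
  rw [mem_filter, mem_filter]
  exact Iff.rfl

open Classical in
/-- The number of steps at which a wire feeding a special gate, or the output, changes. -/
theorem chain_count {V : Type} [Fintype V] {s : ℕ} (D : Circuit V s) (T : Finset V) (M : ℕ)
    (x : ℕ → V → Prop) (val : ℕ → Fin s → Prop) (hval : ∀ t, D.IsEval (x t) (val t))
    (hx : ∀ t v, x t v → x (t + 1) v) (hT : ∀ t v, v ∉ T → (x t v ↔ x (t + 1) v)) :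
    ((range M).filter fun t => ∃ w, D.IsTarget w ∧
      ¬ (Sum.elim (x t) (val t) w ↔ Sum.elim (x (t + 1)) (val (t + 1)) w)).card <
      2 * D.weight T := by
  have hmod : ∀ J, J ∈ D.modules ↔ ∃ i f, D.gate i = Gate.special J f := by
    intro J
    simp [Circuit.modules]
  have hfeed : ∀ i j, Relation.TransGen D.Feeds i j → i < j := by
    intro i j h
    induction h with
    | single h => exact D.acyclic _ _ h
    | tail _ h ih => exact ih.trans (D.acyclic _ _ h)
  -- the position of a module
  have hex : ∀ J ∈ D.modules, ∃ i, (∃ f, D.gate i = Gate.special J f) ∧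
      ∀ i' < i, ¬ ∃ f, D.gate i' = Gate.special J f := by
    intro J hJ
    obtain ⟨i, hi, hmin⟩ := WellFounded.has_min (wellFounded_lt (α := Fin s))
      {i | ∃ f, D.gate i = Gate.special J f} ((hmod J).1 hJ)
    exact ⟨i, hi, fun i' hi' hc => hmin i' hc hi'⟩
  have hout : Nonempty (Fin s) := ⟨D.out⟩
  choose! pos hpos1 hpos2 using hex
  -- a path to a special gate is a path to all gates of its module
  have hsame : ∀ i i' i'' J f f', D.gate i' = Gate.special J f → D.gate i'' = Gate.special J f' →
      Relation.TransGen D.Feeds i i' → Relation.TransGen D.Feeds i i'' := by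
    intro i i' i'' J f f' h' h'' h
    have hlast : ∀ j, D.Feeds j i' → D.Feeds j i'' := by
      intro j hj
      unfold Circuit.Feeds at hj ⊢
      rw [h'] at hj
      rw [h'']
      exact hj
    cases h with
    | single h => exact Relation.TransGen.single (hlast _ h)
    | tail h1 h => exact Relation.TransGen.tail h1 (hlast _ h)
  have hpos : ∀ J ∈ D.modules, ∀ J' ∈ D.modules, D.Precedes J J' →
      (pos J).val < (pos J').val := by
    rintro J hJ J' hJ' ⟨i, i', f, f', hi, hi', h⟩
    obtain ⟨g', hg'⟩ := hpos1 J' hJ'
    have h1 := hfeed _ _ (hsame i i' (pos J') J' f' g' hi' hg' h)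
    have h2 : pos J ≤ i := by
      by_contra hcon
      exact hpos2 J hJ i (not_le.1 hcon) ⟨f, hi⟩
    exact lt_of_le_of_lt h2 h1
  have htr : ∀ J ∈ D.modules, ∀ J' ∈ D.modules, ∀ J'' ∈ D.modules, D.Precedes J J' →
      D.Precedes J' J'' → D.Precedes J J'' := by
    rintro J _ J' _ J'' _ ⟨i, i', f, f', hi, hi', h⟩ ⟨k, k'', g, g'', hk, hk'', h'⟩
    exact ⟨i, k'', f, g'', hi, hk'', (hsame i i' k J' f' g hi' hk h).trans h'⟩
  let Ch : ℕ → (V ⊕ Fin s) → Prop := fun t w =>
    ¬ (Sum.elim (x t) (val t) w ↔ Sum.elim (x (t + 1)) (val (t + 1)) w)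
  have hdep : ∀ t w, Ch t w → D.DependsOn T w := by
    intro t w h
    exact ⟨x t, x (t + 1), val t, val (t + 1), hT t, hval t, hval (t + 1), h⟩
  let E : Finset (V ⊕ Fin s) → Finset ℕ := fun J => (range M).filter fun t => ∃ w ∈ J, Ch t w
  -- monotonicity below the modules
  have hmono : ∀ t, ∀ J ∈ D.modules, (∀ J' ∈ D.modules, D.Precedes J' J → ∀ w ∈ J', ¬ Ch t w) →
      ∀ w ∈ J, Sum.elim (x t) (val t) w → Sum.elim (x (t + 1)) (val (t + 1)) w := by
    intro t J hJ hno
    obtain ⟨i, f, hi⟩ := (hmod J).1 hJ
    have key : ∀ j, Relation.TransGen D.Feeds j i → val t j → val (t + 1) j := by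
      intro j
      induction j using WellFoundedLT.induction with
      | ind j ih =>
        intro hj
        have hw : ∀ w ∈ (D.gate j).wires, Sum.elim (x t) (val t) w →
            Sum.elim (x (t + 1)) (val (t + 1)) w := by
          intro w hw
          cases w with
          | inl v => exact hx t v
          | inr k => exact ih k (D.acyclic j k hw) (Relation.TransGen.head hw hj)
        rw [hval t j, hval (t + 1) j]
        cases hg : D.gate j with
        | and J =>
          rw [hg] at hw
          exact fun h1 w hw' => hw w hw' (h1 w hw')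
        | or J =>
          rw [hg] at hw
          exact fun ⟨w, hw', h1⟩ => ⟨w, hw', hw w hw' h1⟩
        | special J' f' =>
          have h1 := hno J' ((hmod J').2 ⟨j, f', hg⟩) ⟨j, i, f', f, hg, hi, hj⟩
          have := Gate.value_congr (g := Gate.special J' f')
            (v := Sum.elim (x t) (val t)) (v' := Sum.elim (x (t + 1)) (val (t + 1)))
            (fun w hw => not_not.1 (h1 w hw))
          exact this.1
    intro w hw
    cases w with
    | inl v => exact hx t v
    | inr j =>
      refine key j (Relation.TransGen.single ?_)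
      unfold Circuit.Feeds
      rw [hi]
      exact hw
  have hE : ∀ J ∈ D.modules, (E J \ (D.modules.filter fun J' => D.Precedes J' J).biUnion E).card ≤
      D.numDep T J * (1 + ((D.modules.filter fun J' => D.Precedes J' J).biUnion E).card) := by
    intro J hJ
    set B := (D.modules.filter fun J' => D.Precedes J' J).biUnion E with hB
    let Bt : ℕ → Prop := fun t => ∃ J' ∈ D.modules, D.Precedes J' J ∧ ∃ w ∈ J', Ch t w
    have hBt : ∀ t, t < M → (t ∈ B ↔ Bt t) := by
      intro t ht
      constructor
      · intro h
        obtain ⟨J', hJ', h⟩ := mem_biUnion.1 h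
        obtain ⟨hJ'm, hJ'p⟩ := mem_filter.1 hJ'
        exact ⟨J', hJ'm, hJ'p, (mem_filter.1 h).2⟩
      · rintro ⟨J', hJ'm, hJ'p, h⟩
        exact mem_biUnion.2 ⟨J', mem_filter.2 ⟨hJ'm, hJ'p⟩, mem_filter.2 ⟨mem_range.2 ht, h⟩⟩
    -- the counts, stopped at time M
    let a : ℕ → ℕ := fun t =>
      (J.filter fun w => D.DependsOn T w ∧ Sum.elim (x (min t M)) (val (min t M)) w).card
    have hstep : ∀ t, t < M → ¬ Bt t →
        (J.filter fun w => D.DependsOn T w ∧ Sum.elim (x t) (val t) w) ⊆
        (J.filter fun w => D.DependsOn T w ∧ Sum.elim (x (t + 1)) (val (t + 1)) w) := by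
      intro t _ hBt w hw
      rw [mem_filter] at hw ⊢
      refine ⟨hw.1, hw.2.1, hmono t J hJ ?_ w hw.1 hw.2.2⟩
      intro J' hJ' hp w' hw' hch
      exact hBt ⟨J', hJ', hp, w', hw', hch⟩
    have h1 := card_incr_le a (D.numDep T J) (by
      intro t
      apply card_le_card
      intro w hw
      rw [mem_filter] at hw ⊢
      exact ⟨hw.1, hw.2.1⟩) B (by
      intro t ht
      by_cases htM : t < M
      · show (J.filter fun w => D.DependsOn T w ∧ Sum.elim (x (min t M)) (val (min t M)) w).card ≤
          (J.filter fun w => D.DependsOn T w ∧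
            Sum.elim (x (min (t + 1) M)) (val (min (t + 1) M)) w).card
        rw [min_eq_left htM.le, min_eq_left (by omega : t + 1 ≤ M)]
        exact card_le_card (hstep t htM (fun h => ht ((hBt t htM).2 h)))
      · show (J.filter fun w => D.DependsOn T w ∧ Sum.elim (x (min t M)) (val (min t M)) w).card ≤
          (J.filter fun w => D.DependsOn T w ∧
            Sum.elim (x (min (t + 1) M)) (val (min (t + 1) M)) w).card
        rw [min_eq_right (by omega : M ≤ t), min_eq_right (by omega : M ≤ t + 1)]) M
    have h2 : E J \ B ⊆ (range M).filter fun t => t ∉ B ∧ a t < a (t + 1) := by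
      intro t ht
      obtain ⟨htE, htB⟩ := mem_sdiff.1 ht
      obtain ⟨htM, w, hw, hch⟩ := mem_filter.1 htE
      have htM' := mem_range.1 htM
      refine mem_filter.2 ⟨htM, htB, ?_⟩
      show (J.filter fun w => D.DependsOn T w ∧ Sum.elim (x (min t M)) (val (min t M)) w).card <
          (J.filter fun w => D.DependsOn T w ∧
            Sum.elim (x (min (t + 1) M)) (val (min (t + 1) M)) w).card
      rw [min_eq_left htM'.le, min_eq_left (by omega : t + 1 ≤ M)]
      have hnB : ¬ Bt t := fun h => htB ((hBt t htM').2 h)
      have hsub := hstep t htM' hnB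
      apply card_lt_card
      rw [ssubset_iff_of_subset hsub]
      have hm : Sum.elim (x t) (val t) w → Sum.elim (x (t + 1)) (val (t + 1)) w := by
        refine hmono t J hJ ?_ w hw
        intro J' hJ' hp w' hw' hch
        exact hnB ⟨J', hJ', hp, w', hw', hch⟩
      refine ⟨w, ?_, ?_⟩
      · rw [mem_filter]
        refine ⟨hw, hdep t w hch, ?_⟩
        by_contra hcon
        exact hch ⟨hm, fun h => absurd h hcon⟩
      · rw [mem_filter]
        rintro ⟨_, _, h⟩
        exact hch ⟨hm, fun _ => h⟩
    have h3 : (range M).filter (fun t => t ∈ B) ⊆ B := by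
      intro t ht
      exact (mem_filter.1 ht).2
    calc (E J \ B).card ≤ _ := card_le_card h2
      _ ≤ _ := h1
      _ ≤ _ := Nat.mul_le_mul_left _ (Nat.add_le_add_left (card_le_card h3) _)
  have hU := card_union_lt D.Precedes (D.numDep T) (fun J => (pos J).val) D.modules hpos htr E hE
    D.modules.card D.modules (Subset.refl _) rfl (fun _ _ J' hJ' _ => hJ')
  rw [Circuit.weight_eq]
  -- the output
  set B := D.modules.biUnion E with hB
  let b : ℕ → ℕ := fun t => if val (min t M) D.out then 1 else 0
  have houtm : ∀ t, t < M → t ∉ B → (val t D.out → val (t + 1) D.out) := by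
    intro t ht htB
    have hch : ∀ i J f w, D.gate i = Gate.special J f → w ∈ J →
        (Sum.elim (x t) (val t) w ↔ Sum.elim (x (t + 1)) (val (t + 1)) w) := by
      intro i J f w hi hw
      by_contra hcon
      exact htB (mem_biUnion.2 ⟨J, (hmod J).2 ⟨i, f, hi⟩,
        mem_filter.2 ⟨mem_range.2 ht, w, hw, hcon⟩⟩)
    have hfro : D.IsFrozen (val t) (x (t + 1)) (val (t + 1)) := by
      intro i
      have hi := hval (t + 1) i
      cases hgi : D.gate i with
      | and J => rw [hgi] at hi; exact hi
      | or J => rw [hgi] at hi; exact hi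
      | special J f =>
        rw [hgi] at hi
        rw [hi]
        have h5 := hval t i
        rw [hgi] at h5
        show _ ↔ val t i
        rw [h5]
        exact (Gate.value_congr (g := Gate.special J f) (fun w hw => hch i J f w hgi hw)).symm
    exact (hval t).isFrozen.mono hfro (hx t) (Sum.inr D.out)
  have h1 := card_incr_le b 1 (by
    intro t
    show (if val (min t M) D.out then 1 else 0) ≤ 1
    split_ifs <;> omega) B (by
    intro t ht
    show (if val (min t M) D.out then 1 else 0) ≤ if val (min (t + 1) M) D.out then 1 else 0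
    by_cases htM : t < M
    · rw [min_eq_left htM.le, min_eq_left (by omega : t + 1 ≤ M)]
      have h2 := houtm t htM ht
      split_ifs with h3 h4
      · exact le_rfl
      · exact absurd (h2 h3) h4
      · exact Nat.zero_le _
      · exact le_rfl
    · rw [min_eq_right (by omega : M ≤ t), min_eq_right (by omega : M ≤ t + 1)]) M
  have h2 : ((range M).filter fun t => ∃ w, D.IsTarget w ∧
      ¬ (Sum.elim (x t) (val t) w ↔ Sum.elim (x (t + 1)) (val (t + 1)) w)) ⊆
      B ∪ (range M).filter fun t => t ∉ B ∧ b t < b (t + 1) := by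
    intro t ht
    obtain ⟨htM, w, hw, hne⟩ := mem_filter.1 ht
    have htM' := mem_range.1 htM
    by_cases htB : t ∈ B
    · exact mem_union_left _ htB
    · apply mem_union_right
      refine mem_filter.2 ⟨htM, htB, ?_⟩
      rcases hw with rfl | ⟨i, J, f, hi, hw⟩
      · show (if val (min t M) D.out then 1 else 0) < if val (min (t + 1) M) D.out then 1 else 0
        rw [min_eq_left htM'.le, min_eq_left (by omega : t + 1 ≤ M)]
        have h3 := houtm t htM' htB
        have h0 : ¬ val t D.out := fun h => hne ⟨h3, fun _ => h⟩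
        have h1 : val (t + 1) D.out := by
          by_contra h
          exact hne ⟨h3, fun h' => absurd h' h⟩
        rw [if_neg h0, if_pos h1]
        norm_num
      · exfalso
        exact htB (mem_biUnion.2 ⟨J, (hmod J).2 ⟨i, f, hi⟩,
          mem_filter.2 ⟨mem_range.2 htM', w, hw, hne⟩⟩)
  have h3 : (range M).filter (fun t => t ∈ B) ⊆ B := by
    intro t ht
    exact (mem_filter.1 ht).2
  have h4 := (card_le_card h2).trans (card_union_le _ _)
  have h5 := card_le_card h3
  omega

end chain

end Pool.Agent.CliqueModules
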