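import Mathlib
import Pool.Agent.Lib.MP_0a1b52_lc_MOD.Step

/-!
The counting version of one step.
-/

namespace Pool.Agent.CliqueModules

open Finset Pool.Agent.MP0a1b52

section step

variable {F : Type} [Field F] [Fintype F] [DecidableEq F]
variable {A : Type} [Fintype A] [DecidableEq A]
variable {d : ℕ} (φ : F → A) (B : ℕ)

open Classical in
theorem step_count (hB : ∀ α, (univ.filter fun z : F => φ z = α).card ≤ B)
    (hd : 2 ≤ d) (h2 : 2 * ((d - 1) * B) ≤ Fintype.card F) (hdF : d ≤ Fintype.card F)
    (hneg : 4 * (Fintype.card F ^ d * (4 * d - 1) ^ Fintype.card F) ≤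
      (4 * d) ^ Fintype.card F)
    (𝓖 : Set (Set (F × A) → Prop)) (a : ℕ) (ha : a ≤ 2 ^ d) (hg : Good d d 𝓖 a) :
    (∃ bad : Finset (Fin d → F), bad.card * 2 ^ d ≤ a * Fintype.card F ^ d ∧
      ∀ c ∉ bad, ∀ g ∈ 𝓖, g (testPos φ c) → g ∅) ∨
    (∃ g ∈ 𝓖, ¬ g ∅ ∧ (univ : Finset (F × A → Fin (4 * d))).card ≤
      4 * (univ.filter fun ω : F × A → Fin (4 * d) =>
        (∀ c : Fin d → F, ¬ testPos φ c ⊆ testNeg ω) ∧ g (testNeg ω)).card) := by
  obtain ⟨P, N, hP, hPc, hN, hNc, hgood⟩ := hg
  have hFpos : 0 < Fintype.card F := Fintype.card_pos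
  have hApos : 0 < Fintype.card A := Fintype.card_pos_iff.2 ⟨φ 0⟩
  set q := Fintype.card F with hq
  by_cases h : ∀ g ∈ 𝓖, ¬ g ∅ → ∃ C, Approx d d g C ∅ P N
  · left
    refine ⟨univ.filter fun c : Fin d → F => dnf P (testPos φ c), ?_, ?_⟩
    · have hcov : (univ.filter fun c : Fin d → F => dnf P (testPos φ c)) ⊆ P.biUnion fun m =>
          univ.filter fun c : Fin d → F => (m : Set (F × A)) ⊆ testPos φ c := by
        intro c hc
        obtain ⟨m, hm, hmc⟩ := (mem_filter.1 hc).2
        exact mem_biUnion.2 ⟨m, hm, by simpa using hmc⟩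
      have h1 := (card_le_card hcov).trans card_biUnion_le
      have h3 : ∑ m ∈ P, (univ.filter fun c : Fin d → F =>
          (m : Set (F × A)) ⊆ testPos φ c).card ≤ (a * (d - 1) ^ d) * B ^ d := by
        refine (sum_le_sum fun m hm => card_pos_monomial φ B hB m (hP m hm)).trans ?_
        simp only [sum_const, smul_eq_mul]
        exact Nat.mul_le_mul_right _ hPc
      have h5 : 2 ^ d * ((d - 1) * B) ^ d ≤ q ^ d := by
        rw [← mul_pow]
        exact Nat.pow_le_pow_left h2 _
      calc (univ.filter fun c : Fin d → F => dnf P (testPos φ c)).card * 2 ^ d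
          ≤ ((a * (d - 1) ^ d) * B ^ d) * 2 ^ d := Nat.mul_le_mul_right _ (h1.trans h3)
        _ = a * (2 ^ d * ((d - 1) * B) ^ d) := by rw [mul_pow]; ring
        _ ≤ a * q ^ d := Nat.mul_le_mul_left _ h5
    · intro c hc g hg hgc
      have hc' : ¬ dnf P (testPos φ c) := fun h' => hc (mem_filter.2 ⟨mem_univ _, h'⟩)
      by_contra hne
      obtain ⟨C, hA⟩ := h g hg hne
      obtain ⟨m, hm, -⟩ := hA.pos _ hgc hc'
      simp at hm
  · right
    push Not at h
    obtain ⟨g, hgG, hge, hC⟩ := h
    obtain ⟨C, D, hA⟩ := hgood g hgG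
    have hDne : D.Nonempty := by
      rw [nonempty_iff_ne_empty]
      rintro rfl
      exact hC C hA
    obtain ⟨m, hm⟩ := hDne
    have hmc : m.card ≤ d - 1 := by
      have := hA.cD m hm
      omega
    refine ⟨g, hgG, hge, ?_⟩
    set M := 4 * d with hM
    have hMpos : 0 < M := by omega
    set n := Fintype.card (F × A) with hn
    have hqn : q ≤ n := by
      rw [hn, Fintype.card_prod]
      exact Nat.le_mul_of_pos_right _ hApos
    have hdn : d ≤ n := hdF.trans hqn
    set good := univ.filter fun ω : F × A → Fin M =>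
        (∀ c : Fin d → F, ¬ testPos φ c ⊆ testNeg ω) ∧ g (testNeg ω) with hgood
    have hcov : (univ : Finset (F × A → Fin M)) ⊆ good ∪
        ((m.biUnion fun v => univ.filter fun ω : F × A → Fin M =>
          ∀ u ∈ ({v} : Finset (F × A)), u ∉ testNeg ω) ∪
        ((univ.biUnion fun c : Fin d → F =>
          univ.filter fun ω : F × A → Fin M => testPos φ c ⊆ testNeg ω) ∪
        (N.biUnion fun c => univ.filter fun ω : F × A → Fin M => ∀ v ∈ c, v ∉ testNeg ω))) := by
      intro ω _
      by_cases h1 : (m : Set (F × A)) ⊆ testNeg ω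
      · by_cases hω : ∃ c : Fin d → F, testPos φ c ⊆ testNeg ω
        · obtain ⟨c, hc⟩ := hω
          apply mem_union_right
          apply mem_union_right
          apply mem_union_left
          exact mem_biUnion.2 ⟨c, mem_univ _, by simpa using hc⟩
        · push Not at hω
          by_cases h4 : cnf N (testNeg ω)
          · apply mem_union_left
            exact mem_filter.2 ⟨mem_univ _, hω, hA.neg _ (hA.le _ ⟨m, hm, h1⟩) h4⟩
          · apply mem_union_right
            apply mem_union_right
            apply mem_union_right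
            unfold cnf at h4
            push Not at h4
            obtain ⟨c, hc, hcv⟩ := h4
            exact mem_biUnion.2 ⟨c, hc, by simpa using hcv⟩
      · apply mem_union_right
        apply mem_union_left
        obtain ⟨v, hv, hvω⟩ := Set.not_subset.1 h1
        exact mem_biUnion.2 ⟨v, hv, by simpa using hvω⟩
    have hcard := card_le_card hcov
    have h1 : (univ : Finset (F × A → Fin M)).card = M ^ n := by
      rw [card_univ, Fintype.card_fun, Fintype.card_fin]
    have k1 : 4 * (m.biUnion fun v => univ.filter fun ω : F × A → Fin M =>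
          ∀ u ∈ ({v} : Finset (F × A)), u ∉ testNeg ω).card ≤ M ^ n := by
      have h3 : (m.biUnion fun v => univ.filter fun ω : F × A → Fin M =>
          ∀ u ∈ ({v} : Finset (F × A)), u ∉ testNeg ω).card ≤ (d - 1) * M ^ (n - 1) := by
        refine card_biUnion_le.trans ?_
        refine (sum_le_sum fun v _ => card_neg_clause (M := M) ({v} : Finset (F × A))).trans ?_
        simp only [card_singleton, sum_const, smul_eq_mul]
        exact Nat.mul_le_mul_right _ hmc
      have h5 : M ^ n = M * M ^ (n - 1) := by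
        rw [← pow_succ', Nat.sub_add_cancel (by omega)]
      rw [h5]
      calc 4 * (m.biUnion fun v => univ.filter fun ω : F × A → Fin M =>
          ∀ u ∈ ({v} : Finset (F × A)), u ∉ testNeg ω).card ≤ 4 * ((d - 1) * M ^ (n - 1)) :=
            Nat.mul_le_mul_left _ h3
        _ = (4 * (d - 1)) * M ^ (n - 1) := by ring
        _ ≤ M * M ^ (n - 1) := Nat.mul_le_mul_right _ (by omega)
    have k2 : 4 * (univ.biUnion fun c : Fin d → F =>
          univ.filter fun ω : F × A → Fin M => testPos φ c ⊆ testNeg ω).card ≤ M ^ n := by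
      have h3 : (univ.biUnion fun c : Fin d → F =>
          univ.filter fun ω : F × A → Fin M => testPos φ c ⊆ testNeg ω).card ≤
          q ^ d * ((M - 1) ^ q * M ^ (n - q)) := by
        refine card_biUnion_le.trans ?_
        refine (sum_le_sum fun c _ => card_neg_bad φ c).trans ?_
        simp [card_univ, hq, hn]
      calc 4 * (univ.biUnion fun c : Fin d → F =>
          univ.filter fun ω : F × A → Fin M => testPos φ c ⊆ testNeg ω).card
          ≤ 4 * (q ^ d * ((M - 1) ^ q * M ^ (n - q))) := Nat.mul_le_mul_left _ h3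
        _ = (4 * (q ^ d * (M - 1) ^ q)) * M ^ (n - q) := by ring
        _ ≤ M ^ q * M ^ (n - q) := Nat.mul_le_mul_right _ hneg
        _ = M ^ n := by rw [← pow_add, Nat.add_sub_cancel' hqn]
    have k3 : 4 * (N.biUnion fun c => univ.filter fun ω : F × A → Fin M =>
        ∀ v ∈ c, v ∉ testNeg ω).card ≤ M ^ n := by
      have h4 : (N.biUnion fun c => univ.filter fun ω : F × A → Fin M =>
          ∀ v ∈ c, v ∉ testNeg ω).card ≤ (a * (d - 1) ^ d) * M ^ (n - d) := by
        refine card_biUnion_le.trans ?_
        refine (sum_le_sum fun c hc => card_neg_clause c).trans ?_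
        calc ∑ c ∈ N, M ^ (n - c.card) = ∑ c ∈ N, M ^ (n - d) :=
              sum_congr rfl fun c hc => by rw [hN c hc]
          _ = N.card * M ^ (n - d) := by simp
          _ ≤ _ := Nat.mul_le_mul_right _ hNc
      have h5 : 4 * (a * (d - 1) ^ d) ≤ M ^ d := by
        calc 4 * (a * (d - 1) ^ d) ≤ 4 * (2 ^ d * (d - 1) ^ d) :=
              Nat.mul_le_mul_left _ (Nat.mul_le_mul_right _ ha)
          _ = 2 ^ 2 * (2 * (d - 1)) ^ d := by rw [mul_pow]; norm_num
          _ ≤ 2 ^ d * (2 * (d - 1)) ^ d :=
              Nat.mul_le_mul_right _ (Nat.pow_le_pow_right (by norm_num) hd)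
          _ = (4 * (d - 1)) ^ d := by rw [← mul_pow]; congr 1; ring
          _ ≤ M ^ d := Nat.pow_le_pow_left (by omega) _
      calc 4 * (N.biUnion fun c => univ.filter fun ω : F × A → Fin M =>
          ∀ v ∈ c, v ∉ testNeg ω).card ≤ 4 * ((a * (d - 1) ^ d) * M ^ (n - d)) :=
            Nat.mul_le_mul_left _ h4
        _ = (4 * (a * (d - 1) ^ d)) * M ^ (n - d) := by ring
        _ ≤ M ^ d * M ^ (n - d) := Nat.mul_le_mul_right _ h5
        _ = M ^ n := by rw [← pow_add, Nat.add_sub_cancel' hdn]
    rw [h1] at hcard ⊢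
    have h7 := hcard.trans ((card_union_le _ _).trans (Nat.add_le_add_left
      ((card_union_le _ _).trans (Nat.add_le_add_left (card_union_le _ _) _)) _))
    omega

end step

end Pool.Agent.CliqueModules
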