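import Mathlib
import Pool.Agent.Lib.MP_0a1b52_lc_MOD.Main
import Pool.Agent.Lib.MP_0a1b52_lc_RND.Core

/-!
Parameters and the main theorem: average-case version with chains of modules.
-/

namespace Pool.Agent.CliqueModules

open Finset Pool.Agent.MP0a1b52

theorem params2 : ∃ C : ℕ, 81 ≤ C ∧ ∀ L : ℕ, 1 ≤ L → ∃ d q Bd a : ℕ, q.Prime ∧ 2 ≤ d ∧ d ≤ q ∧
    1 ≤ Bd ∧ q ≤ a * Bd ∧ 2 * ((d - 1) * Bd) ≤ q ∧
    4 * (q ^ d * (4 * d - 1) ^ q) ≤ (4 * d) ^ q ∧ 2 ^ (2 * L) ≤ 2 ^ d ∧
    32 * L * (L + 1) * (q * a) + 16 * L * (q * a) ^ 2 ≤ C * L ^ 8 ∧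
    (2 * q + q * d) ^ 2 ≤ C * L ^ 8 ∧
    8 * (q ^ 3 * d) ≤ C * L ^ 8 := by
  obtain ⟨C', hC'⟩ := exists_log_bound
  refine ⟨81 + (64 * 10752 + 16 * 10752 ^ 2 + 4 * 336 ^ 2 * 64 + 8 * 336 ^ 3 * 128) * C',
    by omega, ?_⟩
  intro L hL
  set C := 81 + (64 * 10752 + 16 * 10752 ^ 2 + 4 * 336 ^ 2 * 64 + 8 * 336 ^ 3 * 128) * C' with hC
  set l := Nat.log 2 L + 1 with hl
  have hl1 : 1 ≤ l := by omega
  have hlog : l ^ 10 ≤ C' * L := hC' L hL
  have hlog1 : l ≤ C' * L := (Nat.le_self_pow (by norm_num) l).trans hlog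
  have hlog2 : l ^ 2 ≤ C' * L := (Nat.pow_le_pow_right hl1 (by norm_num)).trans hlog
  have hlog3 : l ^ 3 ≤ C' * L := (Nat.pow_le_pow_right hl1 (by norm_num)).trans hlog
  have hLl : L ≤ 2 ^ l := (Nat.lt_pow_succ_log_self (by norm_num) L).le
  have hll : l ≤ 2 ^ l := Nat.lt_two_pow_self.le
  set e := 14 * l with he
  set d := 2 * L with hd
  have he1 : 1 ≤ e := by omega
  have hd2 : 2 ≤ d := by omega
  have hd2L : d ≤ 2 * L := by omega
  set X := 4 * d * (e * d + 2) with hX
  have hXpos : X ≠ 0 := by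
    have : 0 < X := by positivity
    omega
  obtain ⟨q, hqp, hXq, hq2⟩ := Nat.exists_prime_lt_and_le_two_mul X hXpos
  have hed1 : 1 ≤ e * d := Nat.mul_pos he1 (by omega)
  have hX2 : X ≤ 12 * (e * d ^ 2) := by
    calc X = 4 * d * (e * d + 2) := hX
      _ ≤ 4 * d * (3 * (e * d)) := Nat.mul_le_mul_left _ (by omega)
      _ = 12 * (e * d ^ 2) := by ring
  have hq8 : q ≤ 24 * (e * d ^ 2) := by omega
  have hdX : 4 * d * 2 ≤ X := Nat.mul_le_mul_left _ (by omega)
  have hdq : d ≤ q := by omega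
  have h2dq : 2 * (d - 1) ≤ q := by omega
  have ha : q ≤ 2 ^ e := by
    have h1 : d ≤ 2 * 2 ^ l := by omega
    have h2 : e ≤ 14 * 2 ^ l := Nat.mul_le_mul_left _ hll
    calc q ≤ 24 * (e * d ^ 2) := hq8
      _ ≤ 24 * ((14 * 2 ^ l) * (2 * 2 ^ l) ^ 2) :=
          Nat.mul_le_mul_left _ (Nat.mul_le_mul h2 (Nat.pow_le_pow_left h1 2))
      _ = 1344 * (2 ^ l) ^ 3 := by ring
      _ = 1344 * 2 ^ (3 * l) := by rw [← pow_mul, mul_comm l 3]
      _ ≤ 2 ^ 11 * 2 ^ (3 * l) := Nat.mul_le_mul_right _ (by norm_num)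
      _ = 2 ^ (11 + 3 * l) := (pow_add _ _ _).symm
      _ ≤ 2 ^ e := Nat.pow_le_pow_right (by norm_num) (by omega)
  have hneg : 4 * (q ^ d * (4 * d - 1) ^ q) ≤ (4 * d) ^ q := by
    have h2 := pred_pow_mul_le (4 * d) (e * d + 2) q (by omega) hXq.le
    have h3 : 4 * q ^ d ≤ 2 ^ (e * d + 2) := by
      calc 4 * q ^ d ≤ 4 * (2 ^ e) ^ d :=
            Nat.mul_le_mul_left _ (Nat.pow_le_pow_left ha d)
        _ = 2 ^ (e * d + 2) := by rw [← pow_mul, pow_add]; ring
    calc 4 * (q ^ d * (4 * d - 1) ^ q) = (4 * d - 1) ^ q * (4 * q ^ d) := by ring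
      _ ≤ (4 * d - 1) ^ q * 2 ^ (e * d + 2) := Nat.mul_le_mul_left _ h3
      _ ≤ _ := h2
  set Bd := q / (2 * (d - 1)) with hBd
  have hBd1 : 1 ≤ Bd := Nat.div_pos h2dq (by omega)
  have hc1 : 2 * ((d - 1) * Bd) ≤ q := by
    calc 2 * ((d - 1) * Bd) = q / (2 * (d - 1)) * (2 * (d - 1)) := by rw [hBd]; ring
      _ ≤ q := Nat.div_mul_le_self _ _
  set a := q / Bd + 1 with ha'
  have hc2 : q ≤ a * Bd := by
    have := Nat.lt_div_mul_add (a := q) (b := Bd) (by omega)
    calc q ≤ q / Bd * Bd + Bd := this.le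
      _ = a * Bd := by rw [ha']; ring
  have hc3 : a ≤ 4 * d := by
    have h1 : q < q / (2 * (d - 1)) * (2 * (d - 1)) + 2 * (d - 1) :=
      Nat.lt_div_mul_add (by omega)
    have h2 : q ≤ (4 * (d - 1)) * Bd := by
      have h3 : 2 * (d - 1) ≤ Bd * (2 * (d - 1)) := Nat.le_mul_of_pos_left _ hBd1
      have h4 : (4 * (d - 1)) * Bd = Bd * (2 * (d - 1)) + Bd * (2 * (d - 1)) := by ring
      rw [← hBd] at h1
      omega
    have h5 : q / Bd ≤ 4 * (d - 1) := Nat.div_le_of_le_mul (by rw [mul_comm]; exact h2)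
    omega
  have hqa : q * a ≤ 10752 * (l * L ^ 3) := by
    calc q * a ≤ (24 * (e * d ^ 2)) * (4 * d) := Nat.mul_le_mul hq8 hc3
      _ = 96 * 14 * (l * d ^ 3) := by rw [he]; ring
      _ ≤ 96 * 14 * (l * (2 * L) ^ 3) :=
          Nat.mul_le_mul_left _ (Nat.mul_le_mul_left _ (Nat.pow_le_pow_left hd2L 3))
      _ = 10752 * (l * L ^ 3) := by ring
  refine ⟨d, q, Bd, a, hqp, hd2, hdq, hBd1, hc2, hc1, hneg,
    Nat.pow_le_pow_right (by norm_num) (by omega), ?_, ?_, ?_⟩
  · have h1 : 32 * L * (L + 1) * (q * a) ≤ (64 * 10752) * C' * L ^ 8 := by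
      calc 32 * L * (L + 1) * (q * a) ≤ 32 * L * (2 * L) * (10752 * (l * L ^ 3)) :=
            Nat.mul_le_mul (Nat.mul_le_mul_left _ (by omega)) hqa
        _ = (64 * 10752) * (L ^ 5 * l) := by ring
        _ ≤ (64 * 10752) * (L ^ 7 * (C' * L)) := by
            apply Nat.mul_le_mul_left
            exact Nat.mul_le_mul (Nat.pow_le_pow_right hL (by norm_num)) hlog1
        _ = (64 * 10752) * C' * L ^ 8 := by ring
    have h2 : 16 * L * (q * a) ^ 2 ≤ (16 * 10752 ^ 2) * C' * L ^ 8 := by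
      calc 16 * L * (q * a) ^ 2 ≤ 16 * L * (10752 * (l * L ^ 3)) ^ 2 :=
            Nat.mul_le_mul_left _ (Nat.pow_le_pow_left hqa 2)
        _ = (16 * 10752 ^ 2) * (L ^ 7 * l ^ 2) := by ring
        _ ≤ (16 * 10752 ^ 2) * (L ^ 7 * (C' * L)) :=
            Nat.mul_le_mul_left _ (Nat.mul_le_mul_left _ hlog2)
        _ = (16 * 10752 ^ 2) * C' * L ^ 8 := by ring
    calc 32 * L * (L + 1) * (q * a) + 16 * L * (q * a) ^ 2
        ≤ (64 * 10752) * C' * L ^ 8 + (16 * 10752 ^ 2) * C' * L ^ 8 := Nat.add_le_add h1 h2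
      _ = ((64 * 10752 + 16 * 10752 ^ 2) * C') * L ^ 8 := by ring
      _ ≤ C * L ^ 8 := by
          apply Nat.mul_le_mul_right
          rw [hC]
          have : (64 * 10752 + 16 * 10752 ^ 2) * C' ≤
              (64 * 10752 + 16 * 10752 ^ 2 + 4 * 336 ^ 2 * 64 + 8 * 336 ^ 3 * 128) * C' :=
            Nat.mul_le_mul_right _ (by norm_num)
          omega
  · have h0 : q * 2 ≤ q * d := Nat.mul_le_mul_left q hd2
    have h1 : 2 * q + q * d ≤ 2 * (q * d) := by omega
    have h2 : q * d ≤ 336 * (l * (2 * L) ^ 3) := by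
      calc q * d ≤ (24 * (e * d ^ 2)) * d := Nat.mul_le_mul_right _ hq8
        _ = 336 * (l * d ^ 3) := by rw [he]; ring
        _ ≤ 336 * (l * (2 * L) ^ 3) :=
            Nat.mul_le_mul_left _ (Nat.mul_le_mul_left _ (Nat.pow_le_pow_left hd2L 3))
    calc (2 * q + q * d) ^ 2 ≤ (2 * (q * d)) ^ 2 := Nat.pow_le_pow_left h1 2
      _ ≤ (2 * (336 * (l * (2 * L) ^ 3))) ^ 2 :=
          Nat.pow_le_pow_left (Nat.mul_le_mul_left _ h2) 2
      _ = (4 * 336 ^ 2 * 64) * (L ^ 6 * l ^ 2) := by ring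
      _ ≤ (4 * 336 ^ 2 * 64) * (L ^ 7 * (C' * L)) := by
          apply Nat.mul_le_mul_left
          exact Nat.mul_le_mul (Nat.pow_le_pow_right hL (by norm_num)) hlog2
      _ = ((4 * 336 ^ 2 * 64) * C') * L ^ 8 := by ring
      _ ≤ C * L ^ 8 := by
          apply Nat.mul_le_mul_right
          rw [hC]
          have : (4 * 336 ^ 2 * 64) * C' ≤
              (64 * 10752 + 16 * 10752 ^ 2 + 4 * 336 ^ 2 * 64 + 8 * 336 ^ 3 * 128) * C' :=
            Nat.mul_le_mul_right _ (by norm_num)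
          omega
  · calc 8 * (q ^ 3 * d) ≤ 8 * ((24 * (e * d ^ 2)) ^ 3 * d) :=
          Nat.mul_le_mul_left _ (Nat.mul_le_mul_right _ (Nat.pow_le_pow_left hq8 3))
      _ = (8 * 336 ^ 3) * (d ^ 7 * l ^ 3) := by rw [he]; ring
      _ ≤ (8 * 336 ^ 3) * ((2 * L) ^ 7 * (C' * L)) := by
          apply Nat.mul_le_mul_left
          exact Nat.mul_le_mul (Nat.pow_le_pow_left hd2L 7) hlog3
      _ = ((8 * 336 ^ 3 * 128) * C') * L ^ 8 := by ring
      _ ≤ C * L ^ 8 := by
          apply Nat.mul_le_mul_right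
          rw [hC]
          have : (8 * 336 ^ 3 * 128) * C' ≤
              (64 * 10752 + 16 * 10752 ^ 2 + 4 * 336 ^ 2 * 64 + 8 * 336 ^ 3 * 128) * C' :=
            Nat.mul_le_mul_right _ (by norm_num)
          omega


section families

variable {n : ℕ} {F A W J β : Type} [Field F] [Fintype F] [DecidableEq F]
  [Fintype A] [DecidableEq A] {d p M : ℕ}
  (φ : F → A) (σ : W → J) (π : F × A → W) (η : Fin M → GV F A W d p → Fin n) {b : Fin M → β}

theorem hasClique_iff (G : SimpleGraph (Fin n)) : HasClique G ↔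
    ∃ K : Finset (Fin n), G.IsClique (K : Set (Fin n)) ∧ Nat.sqrt n + 1 ≤ K.card := by
  unfold HasClique
  refine exists_congr fun K => and_congr_right fun _ => ?_
  rw [sqrt_lt_iff]

/-- Two families of graphs on which every small circuit has a small advantage. -/
theorem families (hM : 1 ≤ M) (hε : IsPack η b) (hd : 2 ≤ d) [Nonempty J] [Fintype J]
    [DecidableEq J] (hJ : (∀ j j' : J, j = j') ∨ Function.Injective b)
    (hπ : ∀ h : F → A, ∃ w : J → W, (∀ j, σ (w j) = j) ∧ ∀ i, w (σ (π (i, h i))) = π (i, h i))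
    (hcard : Fintype.card (GS F J d p) = Nat.sqrt n + 1) (T : Finset (EdgeVar n))
    (hT : ∀ e ρ ι, Carries π η e ρ ι → e ∈ T)
    (Bd : ℕ) (hB : ∀ α, (univ.filter fun z : F => φ z = α).card ≤ Bd)
    (h2 : 2 * ((d - 1) * Bd) ≤ Fintype.card F) (hdF : d ≤ Fintype.card F)
    (hneg : 4 * (Fintype.card F ^ d * (4 * d - 1) ^ Fintype.card F) ≤
      (4 * d) ^ Fintype.card F) :
    ∃ (N : ℕ) (P Q : Fin N → SimpleGraph (Fin n)), 0 < N ∧ (∀ i, HasClique (P i)) ∧
      (∀ i, ¬ HasClique (Q i)) ∧ ∀ (s : ℕ) (D : Circuit (EdgeVar n) s), s ≤ 2 ^ d →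
      (D.acceptProb P - D.acceptProb Q) * (M * 2 ^ d) ≤ 8 * D.weight T * 2 ^ d + M * s := by
  classical
  set I := (Fin M → Om φ d) × Fin M × (Fin d → F) with hI
  set G1 : I → SimpleGraph (Fin n) := fun i =>
    UG φ σ π η (Function.update (stt φ i.1 i.2.1) i.2.1 (testPos φ i.2.2)) with hG1
  set G2 : I → SimpleGraph (Fin n) := fun i => UG φ σ π η (stt φ i.1 i.2.1) with hG2
  have hΩ : Nonempty (Om φ d) := by
    have : NeZero (4 * d) := ⟨by omega⟩
    refine ⟨⟨fun _ => 0, ?_⟩⟩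
    intro c h
    have h1 : ((0 : F), φ (ev c 0)) ∈ testPos φ c := rfl
    have h3 := h h1
    rw [mem_testNeg] at h3
    exact h3 rfl
  have hMne : Nonempty (Fin M) := ⟨⟨0, by omega⟩⟩
  have hInon : Nonempty I := inferInstance
  have hIpos : 0 < Fintype.card I := Fintype.card_pos
  let e : Fin (Fintype.card I) ≃ I := (Fintype.equivFin I).symm
  refine ⟨Fintype.card I, fun k => G1 (e k), fun k => G2 (e k), hIpos, ?_, ?_, ?_⟩
  · intro k
    rw [hasClique_iff, ← hcard]
    exact (UG_clique φ σ π η hε (by omega) hJ hπ _).2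
      ⟨(e k).2.1, (e k).2.2, by rw [Function.update_self]⟩
  · intro k
    rw [hasClique_iff, ← hcard]
    intro h
    obtain ⟨ρ, c, hc⟩ := (UG_clique φ σ π η hε (by omega) hJ hπ _).1 h
    exact stt_no φ _ _ _ _ hc
  · intro s D hs
    have hcore := core φ σ π η hε hd D T hT Bd hB h2 hdF hneg hs
    have hcnt : ∀ G : I → SimpleGraph (Fin n),
        (univ.filter fun k : Fin (Fintype.card I) => D.Accepts (G (e k))).card =
        (univ.filter fun i : I => D.Accepts (G i)).card := by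
      intro G
      refine card_bij (fun k _ => e k) ?_ ?_ ?_
      · intro k hk
        exact mem_filter.2 ⟨mem_univ _, (mem_filter.1 hk).2⟩
      · intro k _ k' _ h
        exact e.injective h
      · intro i hi
        refine ⟨e.symm i, mem_filter.2 ⟨mem_univ _, ?_⟩, e.apply_symm_apply i⟩
        rw [e.apply_symm_apply]
        exact (mem_filter.1 hi).2
    have h1 : D.acceptProb (fun k => G1 (e k)) =
        ((univ.filter fun i : I => D.Accepts (G1 i)).card : ℝ) / (Fintype.card I : ℕ) := by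
      exact congrArg (fun z : ℕ => (z : ℝ) / (Fintype.card I : ℕ)) (hcnt G1)
    have h2' : D.acceptProb (fun k => G2 (e k)) =
        ((univ.filter fun i : I => D.Accepts (G2 i)).card : ℝ) / (Fintype.card I : ℕ) := by
      exact congrArg (fun z : ℕ => (z : ℝ) / (Fintype.card I : ℕ)) (hcnt G2)
    set a := (univ.filter fun i : I => D.Accepts (G1 i)).card with ha
    set c := (univ.filter fun i : I => D.Accepts (G2 i)).card with hc
    have hcore' : a * 2 ^ d ≤ c * 2 ^ d +
        Fintype.card (Fin M → Om φ d) * Fintype.card F ^ d * (8 * D.weight T * 2 ^ d + M * s) :=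
      hcore
    have hIc : Fintype.card I = Fintype.card (Fin M → Om φ d) * (M * Fintype.card F ^ d) := by
      show Fintype.card ((Fin M → Om φ d) × Fin M × (Fin d → F)) = _
      rw [Fintype.card_prod, Fintype.card_prod, Fintype.card_fin,
        Fintype.card_fun (α := Fin d), Fintype.card_fin]
    rw [h1, h2']
    have hIR : (0 : ℝ) < (Fintype.card I : ℕ) := by exact_mod_cast hIpos
    have hcoreR : (a : ℝ) * 2 ^ d ≤ c * 2 ^ d + (Fintype.card (Fin M → Om φ d) : ℕ) *
        (Fintype.card F : ℕ) ^ d * (8 * D.weight T * 2 ^ d + M * s) := by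
      exact_mod_cast hcore'
    have hIcR : ((Fintype.card I : ℕ) : ℝ) =
        (Fintype.card (Fin M → Om φ d) : ℕ) * (M * (Fintype.card F : ℕ) ^ d) := by
      exact_mod_cast hIc
    rw [← sub_div, div_mul_eq_mul_div, div_le_iff₀ hIR]
    calc ((a : ℝ) - c) * (M * 2 ^ d) = M * (a * 2 ^ d - c * 2 ^ d) := by ring
      _ ≤ M * ((Fintype.card (Fin M → Om φ d) : ℕ) *
        (Fintype.card F : ℕ) ^ d * (8 * D.weight T * 2 ^ d + M * s)) := by
          apply mul_le_mul_of_nonneg_left _ (Nat.cast_nonneg M)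
          linarith
      _ = (8 * D.weight T * 2 ^ d + M * s) * (Fintype.card I : ℕ) := by
          rw [hIcR]; ring

end families

theorem IsPack.comp {n : ℕ} {F A W R R' β : Type} {d p : ℕ}
    {ε : R → GV F A W d p → Fin n} {b : R → β} (h : IsPack ε b) (g : R' → R)
    (hg : Function.Injective g) : IsPack (fun ρ => ε (g ρ)) (fun ρ => b (g ρ)) where
  inj ρ ρ' a a' h1 := h.inj _ _ _ _ h1
  aux ρ ρ' z := h.aux _ _ _
  leaf ρ ρ' ι h1 := h.leaf _ _ _ h1
  part ρ ρ' w h1 h2 := hg (h.part _ _ _ h1 h2)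

theorem one_le_weight {V : Type} [Fintype V] {s : ℕ} (D : Circuit V s) (T : Finset V) :
    1 ≤ D.weight T := by
  rw [Circuit.weight_eq]
  exact one_le_chainSum _ _ _

theorem acceptProb_nonneg {n s N : ℕ} (D : Circuit (EdgeVar n) s)
    (G : Fin N → SimpleGraph (Fin n)) : 0 ≤ D.acceptProb G := by
  unfold Circuit.acceptProb
  positivity

theorem acceptProb_le_one {n s N : ℕ} (D : Circuit (EdgeVar n) s)
    (G : Fin N → SimpleGraph (Fin n)) : D.acceptProb G ≤ 1 := by
  classical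
  unfold Circuit.acceptProb
  apply div_le_one_of_le₀ _ (Nat.cast_nonneg N)
  have := card_filter_le (univ : Finset (Fin N)) (fun i => D.Accepts (G i))
  rw [card_univ, Fintype.card_fin] at this
  exact_mod_cast this

/-- the trivial families -/
theorem trivial_families (n : ℕ) (hn : 2 ≤ n) : ∃ (N : ℕ) (P Q : Fin N → SimpleGraph (Fin n)),
    0 < N ∧ (∀ i, HasClique (P i)) ∧ (∀ i, ¬ HasClique (Q i)) := by
  refine ⟨1, fun _ => ⊤, fun _ => ⊥, by norm_num, fun _ => ?_, fun _ => ?_⟩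
  · rw [hasClique_iff]
    refine ⟨univ, ?_, ?_⟩
    · intro x _ y _ hxy
      exact hxy
    · rw [card_univ, Fintype.card_fin]
      exact Nat.sqrt_lt_self (by omega)
  · rw [hasClique_iff]
    rintro ⟨K, hK, hc⟩
    have h1 : 1 ≤ Nat.sqrt n := Nat.le_sqrt.2 (by omega)
    obtain ⟨x, hx, y, hy, hxy⟩ := one_lt_card.1 (by omega : 1 < K.card)
    exact hK hx hy hxy

theorem card_edgeVar_le (n : ℕ) (T : Finset (EdgeVar n)) : T.card ≤ n * n := by
  refine (card_le_univ T).trans ((Fintype.card_subtype_le _).trans ?_)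
  rw [Fintype.card_prod, Fintype.card_fin]

theorem main2 : ∃ C : ℕ, ∀ n S : ℕ, C * (Nat.log 2 (n * S) + 1) ^ 8 ≤ n →
    ∀ T : Finset (EdgeVar n), ∃ (N : ℕ) (P Q : Fin N → SimpleGraph (Fin n)),
      0 < N ∧ (∀ i, HasClique (P i)) ∧ (∀ i, ¬ HasClique (Q i)) ∧
      ∀ s ≤ S, ∀ D : Circuit (EdgeVar n) s,
        (D.acceptProb P - D.acceptProb Q) * T.card ≤
          C * D.weight T * (Nat.log 2 (n * S) + 1) ^ 8 := by
  classical
  obtain ⟨C, hC81, hC⟩ := params2
  refine ⟨17 * C, ?_⟩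
  intro n S hn T
  set L := Nat.log 2 (n * S) + 1 with hL
  have hL1 : 1 ≤ L := by omega
  have hL8 : 1 ≤ L ^ 8 := Nat.pow_pos (by omega)
  have hCL : C * L ^ 8 ≤ n := by
    calc C * L ^ 8 ≤ 17 * (C * L ^ 8) := Nat.le_mul_of_pos_left _ (by norm_num)
      _ = 17 * C * L ^ 8 := by ring
      _ ≤ n := hn
  have hn81 : 81 ≤ n := by
    calc 81 ≤ C := hC81
      _ ≤ C * L ^ 8 := Nat.le_mul_of_pos_right _ hL8
      _ ≤ n := hCL
  obtain ⟨d, q, Bd, a, hqp, hd, hdq, hBd, hqa, h2, hneg, hbig, hs1, hs2, hs3⟩ := hC L hL1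
  have hCL1 : 1 ≤ C * L ^ 8 := Nat.mul_pos (by omega) hL8
  -- trivial cases
  rcases Nat.eq_zero_or_pos S with hS0 | hS0
  · obtain ⟨N, P, Q, hN, hP, hQ⟩ := trivial_families n (by omega)
    refine ⟨N, P, Q, hN, hP, hQ, ?_⟩
    intro s hs D
    have := D.out.isLt
    omega
  set K := T.card / (C * L ^ 8) with hK
  rcases Nat.eq_zero_or_pos K with hK0 | hK1
  · obtain ⟨N, P, Q, hN, hP, hQ⟩ := trivial_families n (by omega)
    refine ⟨N, P, Q, hN, hP, hQ, ?_⟩
    intro s hs D
    have h1 : T.card < C * L ^ 8 := by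
      rcases Nat.div_eq_zero_iff.1 hK0 with h | h
      · omega
      · exact h
    have h3 : T.card ≤ 17 * C * D.weight T * L ^ 8 := by
      calc T.card ≤ C * L ^ 8 := h1.le
        _ = C * 1 * L ^ 8 := by ring
        _ ≤ 17 * C * D.weight T * L ^ 8 := by
            apply Nat.mul_le_mul_right
            exact Nat.mul_le_mul (Nat.le_mul_of_pos_left _ (by norm_num)) (one_le_weight D T)
    have h4 : (D.acceptProb P - D.acceptProb Q) * (T.card : ℝ) ≤ 1 * T.card := by
      apply mul_le_mul_of_nonneg_right _ (Nat.cast_nonneg _)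
      have := acceptProb_le_one D P
      have := acceptProb_nonneg D Q
      linarith
    rw [one_mul] at h4
    refine h4.trans ?_
    exact_mod_cast h3
  have : Fact q.Prime := ⟨hqp⟩
  have hq0 : 0 < q := hqp.pos
  have ha0 : 0 < a := by
    rcases Nat.eq_zero_or_pos a with h | h
    · subst h; omega
    · exact h
  have : NeZero a := ⟨by omega⟩
  set φ : ZMod q → Fin a := hsh q Bd a hqa with hφ
  have hB : ∀ α, (univ.filter fun z : ZMod q => φ z = α).card ≤ Bd := hsh_fiber q Bd a hqa hBd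
  have hcF : Fintype.card (ZMod q) = q := ZMod.card q
  have hcI : Fintype.card (ZMod q × Fin a) = q * a := by
    rw [Fintype.card_prod, hcF, Fintype.card_fin]
  -- sizes
  have hnsL : n * S < 2 ^ L := Nat.lt_pow_succ_log_self (by norm_num) _
  have hnL : n < 2 ^ L := lt_of_le_of_lt (Nat.le_mul_of_pos_right _ hS0) hnsL
  have hsL : ∀ s ≤ S, s ≤ 2 ^ d := by
    intro s hs
    calc s ≤ n * s := Nat.le_mul_of_pos_left _ (by omega)
      _ ≤ n * S := Nat.mul_le_mul_left _ hs
      _ ≤ 2 ^ L := hnsL.le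
      _ ≤ 2 ^ (2 * L) := Nat.pow_le_pow_right (by norm_num) (by omega)
      _ ≤ 2 ^ d := hbig
  have hTs : ∀ s ≤ S, T.card * s ≤ 2 ^ d := by
    intro s hs
    calc T.card * s ≤ (n * n) * s := Nat.mul_le_mul_right _ (card_edgeVar_le n T)
      _ = n * (n * s) := by ring
      _ ≤ 2 ^ L * 2 ^ L := Nat.mul_le_mul hnL.le ((Nat.mul_le_mul_left _ hs).trans hnsL.le)
      _ = 2 ^ (2 * L) := by rw [← pow_add]; congr 1; ring
      _ ≤ 2 ^ d := hbig
  have hsq : 2 * q + q * d ≤ Nat.sqrt n := by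
    rw [Nat.le_sqrt']
    exact hs2.trans hCL
  have hsq9 : 9 ≤ Nat.sqrt n := by
    rw [Nat.le_sqrt']
    omega
  have hsq2 : 8 * (Nat.sqrt n + 1) ≤ n := by
    have h1 : Nat.sqrt n * Nat.sqrt n ≤ n := Nat.sqrt_le n
    calc 8 * (Nat.sqrt n + 1) ≤ 9 * Nat.sqrt n := by omega
      _ ≤ Nat.sqrt n * Nat.sqrt n := Nat.mul_le_mul_right _ hsq9
      _ ≤ n := h1
  have hs3' : 8 * (q ^ 3 * d) ≤ n := hs3.trans hCL
  set e := q ^ 3 * d + (Nat.sqrt n + 1) with he
  have he4 : 4 * e ≤ n := by omega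
  have hqa1 : 1 ≤ q * a := Nat.mul_pos hq0 ha0
  have haux : ∀ p, p ≤ Nat.sqrt n + 1 →
      Nonempty (((ZMod q × Fin d × ZMod q × ZMod q) ⊕ Fin p) ↪ Fin e) := by
    intro p hp
    apply Function.Embedding.nonempty_of_card_le
    simp only [Fintype.card_sum, Fintype.card_prod, Fintype.card_fin, hcF]
    have h1 : q * (d * (q * q)) = q ^ 3 * d := by ring
    omega
  have hbound : 32 * L * (L + 1) * (q * a) * K + 16 * L * (q * a) ^ 2 * K ≤ T.card := by
    calc 32 * L * (L + 1) * (q * a) * K + 16 * L * (q * a) ^ 2 * K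
        = (32 * L * (L + 1) * (q * a) + 16 * L * (q * a) ^ 2) * K := by ring
      _ ≤ (C * L ^ 8) * K := Nat.mul_le_mul_right _ hs1
      _ ≤ T.card := by rw [hK]; exact Nat.mul_div_le _ _
  -- the families
  have hfam : ∃ (N : ℕ) (P Q : Fin N → SimpleGraph (Fin n)), 0 < N ∧ (∀ i, HasClique (P i)) ∧
      (∀ i, ¬ HasClique (Q i)) ∧ ∀ (s : ℕ) (D : Circuit (EdgeVar n) s), s ≤ 2 ^ d →
      (D.acceptProb P - D.acceptProb Q) * (K * 2 ^ d) ≤ 8 * D.weight T * 2 ^ d + K * s := by
    rcases CliqueCircuits.exists_packing' T (ZMod q × Fin a) (q * a) e L K hcI hqa1 he4 hnL hL1 hK1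
      hbound with hstar | hmatch
    · obtain ⟨U, X, Q, v, lab, w, hU, hv, hUv, hlU, hlv, hlw, hHR, hXQ⟩ := hstar
      set p := Nat.sqrt n + 1 - (q + 1 + q * d) with hp
      obtain ⟨ua⟩ := haux p (by omega)
      have hcardS : Fintype.card (GS (ZMod q) Unit d p) = Nat.sqrt n + 1 := by
        simp only [Fintype.card_sum, Fintype.card_prod, Fintype.card_fin, hcF, Fintype.card_unit]
        omega
      set ε := starMap U ua v w with hε
      have hpack : IsPack ε (fun ρ : Fin X × Fin Q => ρ.2) := by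
        refine ⟨?_, ?_, ?_, ?_⟩
        · rintro ⟨i, y⟩ ⟨i', y'⟩ ((ι | u) | z) ((ι' | u') | z') h
          · have h1 := congrArg lab h
            simp only [hε, starMap, hlw, Option.some.injEq, Prod.mk.injEq] at h1
            rw [h1.2]
          · have h1 := congrArg lab h
            simp only [hε, starMap, hlw, hlv] at h1
            exact absurd h1 (by simp)
          · have h1 := congrArg lab h
            simp only [hε, starMap, hlw, hlU] at h1
            exact absurd h1 (by simp)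
          · have h1 := congrArg lab h
            simp only [hε, starMap, hlw, hlv] at h1
            exact absurd h1.symm (by simp)
          · rfl
          · exact absurd h.symm (hUv _ _)
          · have h1 := congrArg lab h
            simp only [hε, starMap, hlw, hlU] at h1
            exact absurd h1.symm (by simp)
          · exact absurd h (hUv _ _)
          · have h1 := ua.injective (hU h)
            rw [h1]
        · intro ρ ρ' z
          rfl
        · rintro ⟨i, y⟩ ⟨i', y'⟩ ι h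
          have h1 := congrArg lab h
          simp only [hε, starMap, hlw, Option.some.injEq, Prod.mk.injEq] at h1
          exact h1.1
        · rintro ⟨i, y⟩ ⟨i', y'⟩ u h h'
          have h1 : i = i' := hv h
          exact Prod.ext h1 h'
      obtain ⟨g⟩ : Nonempty (Fin K ↪ Fin X × Fin Q) := by
        apply Function.Embedding.nonempty_of_card_le
        rw [Fintype.card_prod, Fintype.card_fin, Fintype.card_fin, Fintype.card_fin]
        exact hXQ
      exact families φ (fun _ : Unit => ()) (fun _ => ()) (fun ρ => ε (g ρ)) hK1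
        (hpack.comp g g.injective) hd
        (Or.inl fun _ _ => rfl) (fun h => ⟨fun _ => (), fun _ => rfl, fun _ => rfl⟩) hcardS T
        (by
          rintro h ρ ι hg
          refine CliqueCircuits.HR.mem (hHR (g ρ).1 (g ρ).2 ι) h ?_
          rcases hg with ⟨h1, h3⟩ | ⟨h1, h3⟩
          · exact Or.inr ⟨h1, h3⟩
          · exact Or.inl ⟨h1, h3⟩)
        Bd hB (by rw [hcF]; exact h2) (by rw [hcF]; exact hdq) (by rw [hcF]; exact hneg)
    · obtain ⟨U, z, w, hU, hz, hw, hzw, hUz, hUw, hHR⟩ := hmatch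
      set p := Nat.sqrt n + 1 - (q + q + q * d) with hp
      obtain ⟨ua⟩ := haux p (by omega)
      have hcardS : Fintype.card (GS (ZMod q) (ZMod q) d p) = Nat.sqrt n + 1 := by
        simp only [Fintype.card_sum, Fintype.card_prod, Fintype.card_fin, hcF]
        omega
      have ix : Fin K × (ZMod q × Fin a) ≃ Fin (K * (q * a)) :=
        Fintype.equivOfCardEq (by
          rw [Fintype.card_prod, hcI, Fintype.card_fin, Fintype.card_fin])
      set ε := matchMap (d := d) U ua ix z w with hε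
      have hpack : IsPack ε (id : Fin K → Fin K) := by
        refine ⟨?_, ?_, ?_, ?_⟩
        · rintro ρ ρ' ((ι | u) | c) ((ι' | u') | c') h
          · have h1 := ix.injective (hw h)
            rw [(Prod.mk.inj h1).2]
          · exact absurd h.symm (hzw _ _)
          · exact absurd h.symm (hUw _ _)
          · exact absurd h (hzw _ _)
          · have h1 := ix.injective (hz h)
            rw [(Prod.mk.inj h1).2]
          · exact absurd h.symm (hUz _ _)
          · exact absurd h (hUw _ _)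
          · exact absurd h (hUz _ _)
          · have h1 := ua.injective (hU h)
            rw [h1]
        · intro ρ ρ' c
          rfl
        · intro ρ ρ' ι h
          have h1 := ix.injective (hw h)
          exact (Prod.mk.inj h1).1
        · intro ρ ρ' u _ h
          exact h
      exact families φ (Prod.fst : ZMod q × Fin a → ZMod q) id ε hK1 hpack hd
        (Or.inr Function.injective_id) (fun h => ⟨fun i => (i, h i), fun _ => rfl, fun _ => rfl⟩)
        hcardS T
        (by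
          rintro g ρ ι hg
          refine CliqueCircuits.HR.mem (hHR (ix (ρ, ι))) g ?_
          rcases hg with ⟨h1, h3⟩ | ⟨h1, h3⟩
          · exact Or.inr ⟨h1, h3⟩
          · exact Or.inl ⟨h1, h3⟩)
        Bd hB (by rw [hcF]; exact h2) (by rw [hcF]; exact hdq) (by rw [hcF]; exact hneg)
  obtain ⟨N, P, Q, hN, hP, hQ, hadv⟩ := hfam
  refine ⟨N, P, Q, hN, hP, hQ, ?_⟩
  intro s hs D
  have h1 := hadv s D (hsL s hs)
  set γ := D.acceptProb P - D.acceptProb Q with hγ
  have hγ1 : γ ≤ 1 := by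
    have := acceptProb_le_one D P
    have := acceptProb_nonneg D Q
    linarith
  have hTK : T.card ≤ 2 * K * (C * L ^ 8) := by
    have h3 : T.card < (K + 1) * (C * L ^ 8) := by
      rw [hK]
      have := Nat.lt_div_mul_add (a := T.card) (b := C * L ^ 8) (by omega)
      calc T.card < T.card / (C * L ^ 8) * (C * L ^ 8) + C * L ^ 8 := this
        _ = _ := by ring
    refine h3.le.trans (Nat.mul_le_mul_right _ (by omega))
  have hTs' : (T.card : ℝ) * s ≤ 2 ^ d := by exact_mod_cast hTs s hs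
  have hTKR : (T.card : ℝ) ≤ 2 * K * (C * L ^ 8) := by exact_mod_cast hTK
  have hKR : (1 : ℝ) ≤ K := by exact_mod_cast hK1
  have hwR : (1 : ℝ) ≤ D.weight T := by exact_mod_cast one_le_weight D T
  have hCLR : (1 : ℝ) ≤ C * L ^ 8 := by exact_mod_cast hCL1
  have h2d : (0 : ℝ) < 2 ^ d := pow_pos (by norm_num) d
  have hT0 : (0 : ℝ) ≤ T.card := Nat.cast_nonneg _
  -- multiply by T.card and divide by K * 2 ^ d
  have hK0R : (0 : ℝ) < K * 2 ^ d := mul_pos (by linarith) h2d
  have h3 : γ * T.card * (K * 2 ^ d) ≤ (17 * (C * L ^ 8) * D.weight T) * (K * 2 ^ d) := by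
    calc γ * T.card * (K * 2 ^ d) = (γ * (K * 2 ^ d)) * T.card := by ring
      _ ≤ (8 * D.weight T * 2 ^ d + K * s) * T.card := mul_le_mul_of_nonneg_right h1 hT0
      _ = 8 * D.weight T * 2 ^ d * T.card + K * (T.card * s) := by ring
      _ ≤ 8 * D.weight T * 2 ^ d * (2 * K * (C * L ^ 8)) + K * 2 ^ d := by
          apply add_le_add
          · exact mul_le_mul_of_nonneg_left hTKR (mul_nonneg (by linarith) h2d.le)
          · exact mul_le_mul_of_nonneg_left hTs' (by linarith)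
      _ = (16 * (C * L ^ 8) * D.weight T) * (K * 2 ^ d) + 1 * (K * 2 ^ d) := by ring
      _ ≤ (16 * (C * L ^ 8) * D.weight T) * (K * 2 ^ d) +
          ((C * L ^ 8) * D.weight T) * (K * 2 ^ d) := by
          apply add_le_add_right
          apply mul_le_mul_of_nonneg_right _ hK0R.le
          calc (1 : ℝ) = 1 * 1 := by norm_num
            _ ≤ (C * L ^ 8) * D.weight T := mul_le_mul hCLR hwR (by norm_num) (by linarith)
      _ = _ := by ring
  have h4 := le_of_mul_le_mul_right h3 hK0R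
  have hLc : ((L : ℕ) : ℝ) = (Nat.log 2 (n * S) : ℝ) + 1 := by rw [hL]; push_cast; rfl
  rw [← hLc]
  calc γ * T.card ≤ 17 * (C * L ^ 8) * D.weight T := h4
    _ = ((17 * C : ℕ) : ℝ) * D.weight T * L ^ 8 := by push_cast; ring

end Pool.Agent.CliqueModules
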